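import Pool.Agent.T2H68.ZD.U2
import Pool.Agent.W282.LF.Top

/-!
# MP_e573c6_ag: finitely many elements of linear systems of modular functions for all curves

Let `Γ_i` be subgroups of `SL_2 (ℝ)` commensurable with `SL_2 (ℤ)`, let
`S = Γ_1 \ ℍ × … × Γ_n \ ℍ` be the product of the modular curves, and let
`1 = g_{i,0}, g_{i,1}, …, g_{i,D i}` be modular functions for `Γ_i`, holomorphic on the upper half
plane. They satisfy the following conditions (`System`), where `jj = j = E₄³ / Δ` is the elliptic
modular function.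

* `g_{i,a}` is integral over `ℂ[jj]`,
* there is a combination `s_i = ∑ b_a g_{i,a}` with integral coefficients whose order of pole at
  every cusp is the maximum of the orders of the functions `g_{i,a}` (almost all combinations have
  this property), so that the functions `g_{i,a} / s_i` are integral over the local ring of `P^1`
  at `jj = ∞`.

These are the only conditions which are used; no rationality of the functions is required. For
example `g_{i,a}` can be a basis of `L (D_i)`, where `D_i` is any effective divisor on the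
compactification of `Γ_i \ ℍ` supported on cusps. (For `Γ_i = SL_2 (ℤ)`, `g_{i,a} = jj ^ a` these are
the polynomials of degree at most `D i` in `jj`.)

A vector `c` of complex numbers gives `r` numerators `N_j` and `r` denominators `M_j`, the elements
`N_j = ∑_f c(j, 0, f) ∏_i g_{i,f_i} (z_i)`, `M_j = ∑_f c(j, 1, f) ∏_i g_{i,f_i} (z_i)` of the linear
system generated by the products on `S`, and the rational map `F_c = (N_1 / M_1, …, N_r / M_r)` from
`S` to `ℂ^r`. For a set `V ⊂ ℂ^r` of dimension at most `d` let `X_c = pullback g c V` be the closed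
subvariety of `S` (given by its inverse image in `ℍ^n`) of all points at which the
multihomogenizations of the polynomials in the ideal of `V` vanish, evaluated at `N_j, M_j`. It
contains the closure of the pull-back `F_c⁻¹(V)`. If `V` has codimension `n - 1`, then these are
curves in `S`; for instance for `r = n - 1` and `V` a point `v` the curves of all solutions of the
equations `N_j = v_j M_j`, `j = 1, …, n - 1`.

The set `V` is of dimension at most `d` and degree at most `δ` (`Bounded d δ V`) if any `d + 1` of the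
coordinates satisfy on `V` a nontrivial equation of degree at most `δ` in each of the variables. For
an irreducible `V` of dimension `d` there is such a `δ` (part 4), for instance its degree as a
projective variety.

It is proved, **uniformly for all tuples of `s` varieties `V_1, …, V_s` in `ℂ^r`** of degree at most
`δ`, over arbitrary fields of definition:

1. There is a number `B` such that for all choices of `∑_{k ≤ n} (k + 1)^n` different primes
   `p_m > B` there is a modulus `Q`, a product of powers of these primes, with the following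
   property: for all `V_1, …, V_s` of dimensions at most `d_a` and degree at most `δ` there is a
   residue class modulo `Q` such that for **all** vectors `c` in this residue class (with entries which
   are integers, algebraic integers or numbers integral over `ℤ[Γ]`) the varieties
   `X_{c,a} = pullback g c V_a` have no atypical intersections, simultaneously for all `a`: every
   irreducible closed subset of the intersection of `X_{c,a}` with the union of the special
   subvarieties of codimension at least `ρ` has dimension at most `n - (r - d_a) - ρ`.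
2. For all real vectors `u`, all integral vectors `c₀`, all `m ≥ 1` and `ε > 0` there is a **finite**
   set `W` of rational vectors `c / q` with `q ≡ 1 mod m`, `c ≡ c₀ mod m`, whose entries differ from
   those of `u` by less than `ε`, such that for all `V_1, …, V_s` as above at least one element of `W`
   has this property.
3. In every residue class and every box `H u + [-ε H, ε H]^N` at least `η H^N` of the integral
   vectors `c` have this property for all `H ≥ H₀`, where `η > 0` and `H₀` do not depend on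
   `V_1, …, V_s`.
4. Every irreducible variety has a dimension `d` and some degree `δ`.
5. If `d ≤ r - (n - 1)` (the case of curves), the property means that no point of `X_{c,a}` is on a
   special subvariety of codimension at least two: `atyp (C) = ∅` for all the curves `C` in
   `X_{c,a}`, and `X_{c,a}` has no components of higher dimension.

Here `Γ` is any finite set of complex numbers, and the constant modular coordinates of the special
subvarieties are special, or isogenous to elements of `Γ`, or any numbers integral over `ℤ[Γ]`.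

For one fixed irreducible `V` and integral vectors `c` part 3 is the starting file
`MP_22337f_ag.RandomLinearSystems`, where the modulus and the proportion depend on `V`. Our file
`MP_e573c6_ag.UniformTranslates` contains uniform statements about the Möbius translates of curves.
The proof: the equations of `V_a` are normalised at places `O_m` above the primes, and their zeros
are avoided modulo the primes. For a point of `X_{c,a}` the place `O_m` is restricted to the field
generated by the coefficients of these equations, and extended from there to `ℂ` such that the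
independent coordinates of the point are units. So the primes do not depend on the equations.
-/

set_option autoImplicit false

namespace Pool.Agent.Results.MP_e573c6_ag.UniformLinearSystems

open MvPolynomial Pool.Agent.W282.ZP H294ZP UpperHalfPlane

/-- A special subvariety of `Y(1)^n = ℂ^n` of dimension `t` (with more constants allowed): a map
`cls` from the coordinates onto `t` classes (`none` for constant coordinates), an integral matrix of
positive determinant for every coordinate, and a constant for every coordinate, which is a special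
point, isogenous to an element of `Γ`, or integral over `ℤ[Γ]`. -/
structure ModularDatum (Γ : Finset ℂ) (n t : ℕ) where
  /-- the class of a coordinate -/
  cls : Fin n → Option (Fin t)
  surj : ∀ l : Fin t, ∃ i, cls i = some l
  /-- the matrix of a coordinate -/
  mat : Fin n → Matrix (Fin 2) (Fin 2) ℤ
  det_pos : ∀ i, 0 < (mat i).det
  /-- the value of a constant coordinate -/
  const : Fin n → ℂ
  allowed : ∀ i, AllowedConst Γ (const i)

/-- The points of the special subvariety: the constant coordinates are the given constants, and the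
coordinates of class `l` are `j (g_i z_l)`, with a free parameter `z_l` in the upper half plane. -/
def ModularDatum.locus {Γ : Finset ℂ} {n t : ℕ} (Z : ModularDatum Γ n t) : Set (Fin n → ℂ) :=
  {x | ∃ z : Fin t → ℍ, ∀ i, (Z.cls i = none → x i = Z.const i) ∧
    ∀ l, Z.cls i = some l → ∃ w : ℍ,
      (w : ℂ) * (Z.mat i 1 0 * z l + Z.mat i 1 1) = Z.mat i 0 0 * z l + Z.mat i 0 1 ∧
      x i = jj w}

/-- The point `x` of `Y(1)^n` is in a special subvariety of codimension at least `ρ`. -/
def InSpecial (Γ : Finset ℂ) {n : ℕ} (x : Fin n → ℂ) (ρ : ℕ) : Prop :=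
  ∃ (t : ℕ) (Z : ModularDatum Γ n t), ρ + t ≤ n ∧ x ∈ Z.locus

/-- Functions `1 = g_{i,0}, …, g_{i,D i}` on the upper half plane for every `i = 1, …, n`, integral
over the ring of polynomials in the elliptic modular function, such that for a combination `s_i`
with integral coefficients all the functions `g_{i,a}` satisfy an equation
`∑ k, A_k (jj) g ^ k s ^ (M - k) = 0` with polynomials `A_k`, where `A_M ≠ 0` has the largest
degree. -/
structure System {n : ℕ} (D : Fin n → ℕ) (g : (i : Fin n) → Fin (D i + 1) → ℍ → ℂ) : Prop where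
  one : ∀ i z, g i 0 z = 1
  regular : ∀ i a, ∃ (M : ℕ) (A : Fin M → Polynomial ℂ), ∀ z : ℍ,
    g i a z ^ M + ∑ k : Fin M, (A k).eval (jj z) * g i a z ^ (k : ℕ) = 0
  cusps : ∀ i, ∃ b : Fin (D i + 1) → ℤ, ∀ a, ∃ (M : ℕ) (A : Fin (M + 1) → Polynomial ℂ),
    (∀ k, (A k).natDegree ≤ (A (Fin.last M)).natDegree) ∧ A (Fin.last M) ≠ 0 ∧
    ∀ z : ℍ, ∑ k : Fin (M + 1), (A k).eval (jj z) *
      (g i a z ^ (k : ℕ) * (∑ a, (b a : ℂ) * g i a z) ^ (M - (k : ℕ))) = 0

/-- The index set of the coefficients: `(j, b, f)` for `j = 1, …, r`, `b = 0` (numerator), `1`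
(denominator), and all `f` with `0 ≤ f_i ≤ D i`. -/
abbrev Ind {n : ℕ} (r : ℕ) (D : Fin n → ℕ) : Type :=
  Fin r × Fin 2 × ((i : Fin n) → Fin (D i + 1))

variable {n r : ℕ} {D : Fin n → ℕ}

/-- The value of the numerator (`b = 0`) or denominator (`b = 1`) of the `j`-th component at `z`. -/
noncomputable def form (g : (i : Fin n) → Fin (D i + 1) → ℍ → ℂ) (c : Ind r D → ℂ) (b : Fin 2)
    (z : Fin n → ℍ) (j : Fin r) : ℂ :=
  ∑ f : (i : Fin n) → Fin (D i + 1), c (j, b, f) * ∏ i, g i (f i) (z i)

/-- The pull-back `X_c` of `V` (as a subset of `ℍ^n`): the points at which the multihomogenizations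
of all the polynomials `h` in the ideal of `V` vanish, evaluated at the values of the numerators and
denominators. -/
def pullback (g : (i : Fin n) → Fin (D i + 1) → ℍ → ℂ) (c : Ind r D → ℂ) (V : Set (Fin r → ℂ)) :
    Set (Fin n → ℍ) :=
  {z | ∀ h ∈ idealOf V, ∑ v ∈ h.support, h.coeff v *
    ∏ j, (form g c 0 z j ^ (v j) * form g c 1 z j ^ (h.degreeOf j - v j)) = 0}

/-- For all `ρ` every irreducible closed subset `W` of the image in `Y(1)^n` of the intersection of
`X` with the union of the special subvarieties of codimension at least `ρ` satisfies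
`dim W + ρ + r ≤ n + d` (more precisely every irreducible closed set `W`, such that all points of
`W` outside of some hypersurface `p = 0`, which does not contain `W`, are in this image). -/
def NoAtypical (Γ : Finset ℂ) (X : Set (Fin n → ℍ)) (r d : ℕ) : Prop :=
  ∀ (ρ : ℕ) (W : Set (Fin n → ℂ)) (p : MvPolynomial (Fin n) ℂ),
    (∀ x ∈ W, eval x p ≠ 0 → InSpecial Γ x ρ ∧ ∃ z ∈ X, ∀ i, x i = jj (z i)) →
    zcl W ⊆ W → (idealOf W).IsPrime → p ∉ idealOf W →
    zdim W + (ρ : Cardinal) + (r : Cardinal) ≤ (n : Cardinal) + (d : Cardinal)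

/-- The dimension of `V` is at most `d` and its degree is at most `δ`: any `d + 1` of the coordinates
satisfy on `V` a nontrivial equation of degree at most `δ` in each of the variables. -/
def Bounded {ι : Type} (d δ : ℕ) (V : Set (ι → ℂ)) : Prop :=
  ∀ J : Finset ι, J.card = d + 1 → ∃ f : MvPolynomial J ℂ, f ≠ 0 ∧
    (∀ m ∈ f.support, ∀ i, m i ≤ δ) ∧ ∀ x ∈ V, eval (fun i : J => x i) f = 0

/-- The varieties `X_{c,a}` have no atypical intersections. -/
def Good (Γ : Finset ℂ) (g : (i : Fin n) → Fin (D i + 1) → ℍ → ℂ) {s : ℕ} (d : Fin s → ℕ)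
    (V : Fin s → Set (Fin r → ℂ)) (c : Ind r D → ℂ) : Prop :=
  ∀ a, NoAtypical Γ (pullback g c (V a)) r (d a)

/-- The integral vectors as complex vectors. -/
def toC {κ : Type} (c : κ → ℤ) : κ → ℂ := fun i => (c i : ℂ)

/-- coordinates of the same class are isogenous -/
theorem rel_of_class {Γ : Finset ℂ} {n t : ℕ} (Z : ModularDatum Γ n t) {x : Fin n → ℂ}
    (hx : x ∈ Z.locus) {i i' : Fin n} {l : Fin t} (hi : Z.cls i = some l)
    (hi' : Z.cls i' = some l) : IsIntegral (Algebra.adjoin ℤ {x i}) (x i') := by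
  obtain ⟨z, hz⟩ := hx
  obtain ⟨w, hw, hxw⟩ := (hz i).2 l hi
  obtain ⟨w', hw', hxw'⟩ := (hz i').2 l hi'
  rw [hxw, hxw']
  have hdet := Z.det_pos i
  have hdet' := Z.det_pos i'
  rw [Matrix.det_fin_two] at hdet hdet'
  set a := Z.mat i 0 0
  set b := Z.mat i 0 1
  set c := Z.mat i 1 0
  set d := Z.mat i 1 1
  set a' := Z.mat i' 0 0
  set b' := Z.mat i' 0 1
  set c' := Z.mat i' 1 0
  set d' := Z.mat i' 1 1
  have hn := denom_ne (z := z l) hdet
  apply isogenous_integral w w' (a' * d - b' * c) (-(a' * b) + b' * a) (c' * d - d' * c)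
    (-(c' * b) + d' * a)
  · have : (a' * d - b' * c) * (-(c' * b) + d' * a) - (-(a' * b) + b' * a) * (c' * d - d' * c) =
        (a * d - b * c) * (a' * d' - b' * c') := by ring
    rw [this]
    exact mul_pos hdet hdet'
  · have key : (w' : ℂ) * (((c' * d - d' * c : ℤ) : ℂ) * w + ((-(c' * b) + d' * a : ℤ) : ℂ)) *
        ((c : ℂ) * z l + d) =
        (((a' * d - b' * c : ℤ) : ℂ) * w + ((-(a' * b) + b' * a : ℤ) : ℂ)) *
        ((c : ℂ) * z l + d) := by
      push_cast
      linear_combination ((w' : ℂ) * ((c' : ℂ) * d - d' * c) - ((a' : ℂ) * d - b' * c)) * hw +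
        ((a : ℂ) * d - b * c) * hw'
    exact mul_right_cancel₀ hn key

/-- The number `∑_{k ≤ n} (k + 1) ^ n` of the primes which are used. -/
abbrev numPrimes (n : ℕ) : ℕ := Fintype.card ((k : Fin (n + 1)) × (Fin n → Option (Fin k)))

/-- The residue classes. -/
theorem classes (r δ s : ℕ) (g : (i : Fin n) → Fin (D i + 1) → ℍ → ℂ) (hg : System D g)
    (Γ : Finset ℂ) :
    ∃ B : ℕ, ∀ p : Fin (numPrimes n) → ℕ, (∀ m, (p m).Prime ∧ B < p m) →
      Function.Injective p →
      ∃ Q : ℕ, 0 < Q ∧ (∀ q : ℕ, q.Prime → q ∣ Q → ∃ m, q = p m) ∧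
      ∀ (V : Fin s → Set (Fin r → ℂ)) (d : Fin s → ℕ), (∀ a, Bounded (d a) δ (V a)) →
      ∃ c₀ : Ind r D → ℤ, ∀ c : Ind r D → ℂ,
        (∀ i, ∃ w : ℂ, IsIntegral (Algebra.adjoin ℤ (Γ : Set ℂ)) w ∧ c i = (c₀ i : ℂ) + Q * w) →
        Good Γ g d V c := by
  classical
  choose M₁ A₁ hB₁ using hg.regular
  choose b hb using hg.cusps
  choose M₂ A₂ hA₂ hA₂0 hB₂ using hb
  obtain ⟨B, hB⟩ := T2H68.ZD.exists_classU (r := r) (s := s) δ D b M₁ A₁ M₂ A₂ hA₂ hA₂0 Γ
  refine ⟨B, fun p hp hpinj => ?_⟩
  obtain ⟨Q, hQ, hQp, hmain⟩ := hB p hp hpinj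
  refine ⟨Q, hQ, hQp, fun V d hV => ?_⟩
  obtain ⟨F, G, hF, hG⟩ := hmain (fun a => idealOf (V a)) d (fun a J hJ => by
    obtain ⟨f, h1, h2, h3⟩ := hV a J hJ
    refine ⟨f, h1, h2, ?_⟩
    rw [mem_idealOf]
    intro x hx
    rw [eval_rename]
    exact h3 x hx)
  refine ⟨G, fun c hc a => ?_⟩
  intro ρ W p hW hcl hprime hp
  obtain ⟨w, hwW, hpw, T, hT, hdimW⟩ :=
    Pool.Agent.W282.LF.generic_dim_open F W hprime hcl p hp
  obtain ⟨⟨t, Z, hρ, hx⟩, z, hz, hwz⟩ := hW w hwW hpw
  have hrn : t ≤ n := by omega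
  have h3 := hG c hc a t Z.cls w hrn (fun i hi => by
      obtain ⟨z, hz⟩ := hx
      rw [(hz i).1 hi]
      exact (Z.allowed i).isIntegral) (fun i i' l hi hi' => rel_of_class Z hx hi hi')
    (fun i a => g i a (z i)) (fun i => hg.one i _) (fun i a => by rw [hwz i]; exact hB₁ i a _)
    (fun i a => by rw [hwz i]; exact hB₂ i a _) hz T hT
  have h4 : T.card + ρ + r ≤ n + d a := by omega
  calc zdim W + (ρ : Cardinal) + (r : Cardinal)
      ≤ (T.card : Cardinal) + (ρ : Cardinal) + (r : Cardinal) := by gcongr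
    _ = ((T.card + ρ + r : ℕ) : Cardinal) := by push_cast; rfl
    _ ≤ ((n + d a : ℕ) : Cardinal) := by exact_mod_cast h4
    _ = (n : Cardinal) + (d a : Cardinal) := by push_cast; rfl

/-- Residue classes, finite sets of coefficient vectors, and proportions, uniformly for all tuples of
`s` varieties of degree at most `δ`; every irreducible variety has some degree; and the case of
curves. -/
theorem result {n : ℕ} (r δ s : ℕ) (D : Fin n → ℕ) (g : (i : Fin n) → Fin (D i + 1) → ℍ → ℂ)
    (hg : System D g) (Γ : Finset ℂ) :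
    (∃ B : ℕ, ∀ p : Fin (numPrimes n) → ℕ, (∀ m, (p m).Prime ∧ B < p m) →
      Function.Injective p →
      ∃ Q : ℕ, 0 < Q ∧ (∀ q : ℕ, q.Prime → q ∣ Q → ∃ m, q = p m) ∧
      ∀ (V : Fin s → Set (Fin r → ℂ)) (d : Fin s → ℕ), (∀ a, Bounded (d a) δ (V a)) →
      ∃ c₀ : Ind r D → ℤ, ∀ c : Ind r D → ℂ,
        (∀ i, ∃ w : ℂ, IsIntegral (Algebra.adjoin ℤ (Γ : Set ℂ)) w ∧ c i = (c₀ i : ℂ) + Q * w) →
        Good Γ g d V c) ∧
    (∀ (u : Ind r D → ℝ) (c₀ : Ind r D → ℤ) (m : ℕ) (ε : ℝ), 0 < m → 0 < ε →
      ∃ W : Set (ℕ × (Ind r D → ℤ)), W.Finite ∧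
        (∀ q ∈ W, 0 < q.1 ∧ q.1 ≡ 1 [MOD m] ∧ (∀ i, |(q.2 i : ℝ) / q.1 - u i| < ε) ∧
          ∀ i, q.2 i ≡ c₀ i [ZMOD m]) ∧
        ∀ (V : Fin s → Set (Fin r → ℂ)) (d : Fin s → ℕ), (∀ a, Bounded (d a) δ (V a)) →
          ∃ q ∈ W, Good Γ g d V (toC q.2)) ∧
    (∀ (u : Ind r D → ℝ) (c₀ : Ind r D → ℤ) (m : ℕ) (ε : ℝ), 0 < m → 0 < ε →
      ∃ η : ℝ, 0 < η ∧ ∃ H₀ : ℕ,
        ∀ (V : Fin s → Set (Fin r → ℂ)) (d : Fin s → ℕ), (∀ a, Bounded (d a) δ (V a)) →
          ∀ H : ℕ, H₀ ≤ H → η * (H : ℝ) ^ (Fintype.card (Ind r D)) ≤ Nat.card {c : Ind r D → ℤ //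
            (∀ i, |(c i : ℝ) - H * u i| ≤ ε * H) ∧ (∀ i, (m : ℤ) ∣ c i - c₀ i) ∧
              Good Γ g d V (toC c)}) ∧
    (∀ V : Set (Fin r → ℂ), (idealOf V).IsPrime → ∃ d δ' : ℕ, zdim V = d ∧ Bounded d δ' V) ∧
    ∀ (Y : Set (Fin n → ℍ)) (d : ℕ), NoAtypical Γ Y r d → n + d ≤ r + 1 →
      ∀ z ∈ Y, ¬ InSpecial Γ (fun i => jj (z i)) 2 := by
  classical
  have hmain := classes r δ s g hg Γ
  have hint : ∀ b : ℤ, IsIntegral (Algebra.adjoin ℤ (Γ : Set ℂ)) (b : ℂ) := by
    intro b
    have : IsIntegral (Algebra.adjoin ℤ (Γ : Set ℂ))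
      (algebraMap (Algebra.adjoin ℤ (Γ : Set ℂ)) ℂ (b : Algebra.adjoin ℤ (Γ : Set ℂ))) :=
      isIntegral_algebraMap
    rwa [map_intCast] at this
  -- a modulus which is prime to `m`
  have hmod : ∀ m : ℕ, 0 < m → ∃ Q : ℕ, 0 < Q ∧ Nat.Coprime Q m ∧
      ∀ (V : Fin s → Set (Fin r → ℂ)) (d : Fin s → ℕ), (∀ a, Bounded (d a) δ (V a)) →
      ∃ c₀ : Ind r D → ℤ, ∀ c : Ind r D → ℤ, (∀ i, (Q : ℤ) ∣ c i - c₀ i) →
        Good Γ g d V (toC c) := by
    intro m hm
    obtain ⟨B, hB⟩ := hmain
    obtain ⟨p, hp, hpinj⟩ := T2H68.ZD.exists_prime_tuple (numPrimes n) (B + m)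
    obtain ⟨Q, hQ, hQp, hcl⟩ := hB p (fun l => ⟨(hp l).1, by have := (hp l).2; omega⟩) hpinj
    refine ⟨Q, hQ, T2H68.ZD.coprime_of_primes hm fun q hq hqQ => ?_, fun V d hV => ?_⟩
    · obtain ⟨l, rfl⟩ := hQp q hq hqQ
      have := (hp l).2
      omega
    · obtain ⟨c₀, hc₀⟩ := hcl V d hV
      refine ⟨c₀, fun c hc => hc₀ _ fun i => ?_⟩
      obtain ⟨b, hb⟩ := hc i
      refine ⟨(b : ℂ), hint b, ?_⟩
      have h1 : c i = c₀ i + Q * b := by linarith
      show ((c i : ℤ) : ℂ) = _
      rw [h1]
      push_cast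
      ring
  refine ⟨hmain, ?_, ?_, ?_, ?_⟩
  · intro u c₀ m ε hm hε
    obtain ⟨Q, hQ, hco, hcl⟩ := hmod m hm
    obtain ⟨W, hW, h1, h2⟩ := T2H68.ZD.finite_reps (ι := Ind r D) Q m hQ hm hco c₀ u ε hε
    refine ⟨W, hW, h1, fun V d hV => ?_⟩
    obtain ⟨c', hc'⟩ := hcl V d hV
    obtain ⟨q, hq, hqr⟩ := h2 c'
    refine ⟨q, hq, hc' _ fun i => ?_⟩
    obtain ⟨b, hb⟩ := hqr i
    exact ⟨b, by rw [hb]; ring⟩
  · intro u c₀ m ε hm hε
    obtain ⟨Q, hQ, hco, hcl⟩ := hmod m hm
    obtain ⟨η, hη, H₀, hH₀⟩ := T2H68.ZD.uni_proportion (κ := Ind r D) (Q * m) (Nat.mul_pos hQ hm)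
      u ε hε
    refine ⟨η, hη, H₀, fun V d hV H hH => ?_⟩
    obtain ⟨c', hc'⟩ := hcl V d hV
    obtain ⟨G, hG⟩ := T2H68.ZD.crt_class Q m hco c' c₀
    exact hH₀ G _ (fun c hc => ⟨(hG c hc).2, hc' c (hG c hc).1⟩) H hH
  · intro V hV
    have hfin : Algebra.trdeg ℂ (MvPolynomial (Fin r) ℂ ⧸ idealOf V) < Cardinal.aleph0 :=
      trdeg_lt_aleph0_of_finiteType
    obtain ⟨d, hd⟩ := Cardinal.lt_aleph0.1 hfin
    obtain ⟨δ', hδ'⟩ := T2H68.ZD.exists_degIdeal (idealOf V) hd
    refine ⟨d, δ', hd, fun J hJ => ?_⟩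
    obtain ⟨f, h1, h2, h3⟩ := hδ' J hJ
    refine ⟨f, h1, h2, fun x hx => ?_⟩
    have h4 := mem_idealOf.1 h3 x hx
    rwa [eval_rename] at h4
  · intro Y d hY hd z hz hsp
    let x : Fin n → ℂ := fun i => jj (z i)
    have hid : idealOf ({x} : Set (Fin n → ℂ)) =
        RingHom.ker (eval x : MvPolynomial (Fin n) ℂ →+* ℂ) := by
      ext f
      rw [mem_idealOf, RingHom.mem_ker]
      exact ⟨fun h => h x rfl, fun h y hy => by rw [Set.mem_singleton_iff.1 hy]; exact h⟩
    have hprime : (idealOf ({x} : Set (Fin n → ℂ))).IsPrime := by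
      rw [hid]
      exact RingHom.ker_isPrime _
    have h1 := hY 2 {x} 1 (fun y hy _ => by
      rw [Set.mem_singleton_iff.1 hy]
      exact ⟨hsp, z, hz, fun i => rfl⟩) (by
      intro y hy
      rw [Set.mem_singleton_iff]
      funext i
      have h2 := hy (X i - C (x i)) (by
        rw [hid, RingHom.mem_ker, map_sub, eval_X, eval_C, sub_self])
      rw [map_sub, eval_X, eval_C] at h2
      exact sub_eq_zero.1 h2) hprime (fun h => by
      rw [hid, RingHom.mem_ker, map_one] at h
      exact one_ne_zero h)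
    have h2 : ((2 + r : ℕ) : Cardinal) ≤ ((n + d : ℕ) : Cardinal) := by
      calc ((2 + r : ℕ) : Cardinal) = 0 + ((2 : ℕ) : Cardinal) + (r : Cardinal) := by
            push_cast
            rw [zero_add]
        _ ≤ zdim ({x} : Set (Fin n → ℂ)) + ((2 : ℕ) : Cardinal) + (r : Cardinal) := by
            gcongr
            exact zero_le
        _ ≤ (n : Cardinal) + (d : Cardinal) := h1
        _ = ((n + d : ℕ) : Cardinal) := by push_cast; rfl
    have h3 : 2 + r ≤ n + d := by exact_mod_cast h2
    omega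

end Pool.Agent.Results.MP_e573c6_ag.UniformLinearSystems
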