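import Pool.Agent.T2H68.ZD.Uni3
import Pool.Agent.T2H68.ZD.Dens2

/-!
# MP_e573c6_ag: a finite set of Möbius transformations for all curves of bounded degree

The Shimura variety `Y(1)^n` is identified with `ℂ^n` by the elliptic modular function. For an
irreducible closed algebraic curve `C ⊂ ℂ^n` over `ℂ` and Möbius transformations
`h = (h_1, …, h_n)` let `hC = translate h C` be the Zariski closure of the set of all points
`(h_1 (x_1), …, h_n (x_n))`, `x ∈ C`. The curve has degree at most `d` (`DegLE d`) if any two
different coordinates satisfy on `C` a nontrivial equation of degree at most `d` in each of the two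
variables. It is proved for all `n` and `d`, uniformly for **all** curves of degree at most `d`, over
arbitrary fields of definition:

1. There is a number `D`, depending only on `n` and `d`, such that for all choices of four different
   primes `p_l > D` there is a modulus `Q`, a product of powers of the `p_l`, with the following
   property: for every irreducible curve `C` of degree at most `d` there is a residue class modulo
   `Q` such that for **all** matrices `h_1, …, h_n` in this residue class (with entries which are
   integers, algebraic integers or numbers integral over the ring generated by a given finite set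
   `Γ ⊂ ℂ`) the translate `hC` is an irreducible curve which does not meet any special subvariety of
   codimension at least two: `atyp (hC) = ∅`.
2. For all real matrices `M_i`, all integral matrices `N_i`, all `m ≥ 1` and `ε > 0` there is a
   **finite** set `𝓗` of `n`-tuples `h / k` of rational matrices, with `k ≡ 1 mod m`,
   `h_i ≡ N_i mod m`, and entries of `h_i / k` which differ from those of `M_i` by less than `ε`, such
   that every irreducible curve `C` of degree at most `d` is transformed by at least one element of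
   `𝓗` to an irreducible curve with `atyp (hC) = ∅`. In particular (`M_i = 1`) there are such finite
   sets arbitrarily near to the identity.
3. There are `δ > 0` and `H₀`, depending only on `n` and `d`, such that for every irreducible curve `C`
   of degree at most `d` and all `H ≥ H₀` at least `δ H^(4 n)` of the `n`-tuples of integral matrices with
   entries of absolute value at most `H` have this property.

Here the constant coordinates of the special subvarieties may be special points or arbitrary numbers
integral over `ℤ[Γ]`, for instance all members of the Hecke orbits of the elements of `Γ`; the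
constants `D`, `Q`, `δ`, `H₀` depend on `Γ`, too. For a fixed curve 3. is contained in the starting
file `MP_d83ecd_ag.MoebiusTranslates`, where the constants depend on the curve; here they are uniform
for all curves of given degree, over all fields, and one finite set of transformations is sufficient
for all of them.

More generally, `Y(1)^n` may be replaced by a product of modular curves of arbitrary levels with
functions `s_i` on the factors which are integral over `ℂ[j]`, `R_i (s_i, j) = 0` with `R_i` monic in
the first variable, for instance generators of the function fields if the genus is zero. The curves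
are then given by the coordinates `s_i`, and the Möbius transformations act on these coordinates. We
regard the set `points` of all points of `Y(1)^n` over which there is a point of the curve; the
special subvarieties of codimension at least two of the product lie over those of `Y(1)^n`. For
level one, `R_i = S - J`, the set `points` is the curve itself (part 5). Every irreducible curve has
degree at most `d` for some `d` (part 4).

The proof: at a place of `ℂ` above `p_l` the equations between two coordinates can be normalised such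
that their reductions are not zero, and as `p_l > D` there are integers `t_i`, `t_i'` such that the
reductions do not vanish at any of the points `(t_i, t_j)`, `(t_i, t_j')`, `(t_i', t_j)`,
`(t_i', t_j')`. If `h_i` has its zero near to `t_i`, its pole near to `t_i'`, and a factor with
the denominator `p_l^(e_li)`, then all coordinates but at most one of every point of `hC` have the
exact order `-e_li` at this place. For exponents `e_li` which are independent modulo squares this
excludes two independent modular relations between the coordinates.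
-/

namespace Pool.Agent.Results.MP_e573c6_ag.UniformTranslates

open MvPolynomial Pool.Agent.Results.MP_e573c6_ag.FourPlaces

/-- An irreducible closed algebraic curve in `ℂ^n`: the set of zeros of a prime ideal whose
coordinate ring has the transcendence degree one. -/
def IsCurve {n : ℕ} (C : Set (Fin n → ℂ)) : Prop :=
  ∃ P : Ideal (MvPolynomial (Fin n) ℂ), P.IsPrime ∧
    Algebra.trdeg ℂ (MvPolynomial (Fin n) ℂ ⧸ P) = 1 ∧ C = {x | ∀ F ∈ P, eval x F = 0}

/-- The degree of the curve is at most `d`: any two different coordinates satisfy on the curve a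
nontrivial equation of degree at most `d` in each of the two variables. -/
def DegLE {n : ℕ} (d : ℕ) (C : Set (Fin n → ℂ)) : Prop :=
  ∀ i j, i ≠ j → ∃ F : MvPolynomial (Fin 2) ℂ, F ≠ 0 ∧ (∀ m ∈ F.support, m 0 ≤ d ∧ m 1 ≤ d) ∧
    ∀ x ∈ C, eval ![x i, x j] F = 0

/-- The translate of `C` by the Möbius transformations `h_1, …, h_n`: the Zariski closure of the set
of all points `(h_1 (x_1), …, h_n (x_n))` for `x ∈ C`. -/
def translate {n : ℕ} (h : Fin n → Matrix (Fin 2) (Fin 2) ℂ) (C : Set (Fin n → ℂ)) :
    Set (Fin n → ℂ) :=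
  {y | ∀ F : MvPolynomial (Fin n) ℂ, (∀ x ∈ C, (∀ i, h i 1 0 * x i + h i 1 1 ≠ 0) →
    eval (fun i => (h i 0 0 * x i + h i 0 1) / (h i 1 0 * x i + h i 1 1)) F = 0) → eval y F = 0}

/-- The points of `Y(1)^n` over which there are values `s ∈ C` of the functions on the factors,
which satisfy the equations `R_i (s_i, x_i) = 0`. -/
def points {n : ℕ} (R : Fin n → Polynomial (Polynomial ℂ)) (C : Set (Fin n → ℂ)) :
    Set (Fin n → ℂ) :=
  {x | ∃ s ∈ C, ∀ i, valueAt (RingHom.id ℂ) (R i) (s i) (x i) = 0}

/-- The translate `hC` is an irreducible curve and meets no special subvariety of codimension at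
least two. -/
def Good {n : ℕ} (Γ : Finset ℂ) (R : Fin n → Polynomial (Polynomial ℂ)) (C : Set (Fin n → ℂ))
    (h : Fin n → Matrix (Fin 2) (Fin 2) ℂ) : Prop :=
  (∀ i, (h i).det ≠ 0) ∧ IsCurve (translate h C) ∧
    AtypEmpty (algebraMap (Algebra.adjoin ℤ (Γ : Set ℂ)) ℂ) (points R (translate h C))

/-- Integral matrices as complex matrices. -/
def toC {n : ℕ} (h : Fin n → Matrix (Fin 2) (Fin 2) ℤ) : Fin n → Matrix (Fin 2) (Fin 2) ℂ :=
  fun i a b => (h i a b : ℂ)

/-- Residue classes, finite sets of transformations, and proportions, uniformly for all curves of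
degree at most `d`. -/
theorem result (n d : ℕ) (R : Fin n → Polynomial (Polynomial ℂ)) (hR : ∀ i, (R i).Monic)
    (Γ : Finset ℂ) :
    (∃ D : ℕ, ∀ p : Fin 4 → ℕ, (∀ l, (p l).Prime ∧ D < p l) → Function.Injective p →
      ∃ Q : ℕ, 0 < Q ∧ (∀ q : ℕ, q.Prime → q ∣ Q → ∃ l, q = p l) ∧
        ∀ C : Set (Fin n → ℂ), IsCurve C → DegLE d C →
        ∃ g : Fin n → Matrix (Fin 2) (Fin 2) ℤ, ∀ h : Fin n → Matrix (Fin 2) (Fin 2) ℂ,
          (∀ i a b, ∃ w : ℂ, IsIntegral (Algebra.adjoin ℤ (Γ : Set ℂ)) w ∧
            h i a b = (g i a b : ℂ) + Q * w) → Good Γ R C h) ∧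
    (∀ (M : Fin n → Matrix (Fin 2) (Fin 2) ℝ) (N : Fin n → Matrix (Fin 2) (Fin 2) ℤ) (m : ℕ)
      (ε : ℝ), 0 < m → 0 < ε → ∃ W : Set (ℕ × (Fin n → Matrix (Fin 2) (Fin 2) ℤ)), W.Finite ∧
        (∀ q ∈ W, 0 < q.1 ∧ q.1 ≡ 1 [MOD m] ∧
          (∀ i a b, |(q.2 i a b : ℝ) / q.1 - M i a b| < ε) ∧
          ∀ i a b, q.2 i a b ≡ N i a b [ZMOD m]) ∧
        ∀ C : Set (Fin n → ℂ), IsCurve C → DegLE d C → ∃ q ∈ W, Good Γ R C (toC q.2)) ∧
    (∃ δ : ℝ, 0 < δ ∧ ∃ H₀ : ℕ, ∀ C : Set (Fin n → ℂ), IsCurve C → DegLE d C → ∀ H : ℕ, H₀ ≤ H →
      δ * (H : ℝ) ^ (4 * n) ≤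
      (Set.ncard {h : Fin n → Matrix (Fin 2) (Fin 2) ℤ | (∀ i a b, |h i a b| ≤ H) ∧
        Good Γ R C (toC h)} : ℝ)) ∧
    (∀ C : Set (Fin n → ℂ), IsCurve C → ∃ d' : ℕ, DegLE d' C) ∧
    ∀ C : Set (Fin n → ℂ), points (fun _ => Polynomial.X - Polynomial.C Polynomial.X) C = C := by
  classical
  have hmain := T2H68.ZD.uni_class n d R hR Γ
  have hintg : ∀ s : ℤ, IsIntegral (Algebra.adjoin ℤ (Γ : Set ℂ)) (s : ℂ) := by
    intro s
    have : IsIntegral (Algebra.adjoin ℤ (Γ : Set ℂ))
      (algebraMap (Algebra.adjoin ℤ (Γ : Set ℂ)) ℂ (s : Algebra.adjoin ℤ (Γ : Set ℂ))) :=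
      isIntegral_algebraMap
    rwa [map_intCast] at this
  refine ⟨hmain, ?_, ?_, fun C hC => T2H68.ZD.degLE_of_isCurve hC, ?_⟩
  · intro M N m ε hm hε
    obtain ⟨D, hD⟩ := hmain
    obtain ⟨p, hp, hpinj⟩ := T2H68.ZD.exists_four_primes (D + m)
    obtain ⟨Q, hQ, hQp, hg⟩ := hD p (fun l => ⟨(hp l).1, by have := (hp l).2; omega⟩) hpinj
    have hco : Nat.Coprime Q m := T2H68.ZD.coprime_of_primes hm fun q hq hqQ => by
      obtain ⟨l, rfl⟩ := hQp q hq hqQ
      have := (hp l).2
      omega
    obtain ⟨W, hW, h1, h2⟩ := T2H68.ZD.finite_reps (ι := Fin n × Fin 2 × Fin 2) Q m hQ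
      hm hco (fun s => N s.1 s.2.1 s.2.2) (fun s => M s.1 s.2.1 s.2.2) ε hε
    refine ⟨(fun q : ℕ × (Fin n × Fin 2 × Fin 2 → ℤ) => (q.1, fun i a b => q.2 (i, a, b))) '' W,
      hW.image _, ?_, fun C hC hdC => ?_⟩
    · rintro _ ⟨q, hq, rfl⟩
      obtain ⟨g1, g2, g3, g4⟩ := h1 q hq
      exact ⟨g1, g2, fun i a b => g3 (i, a, b), fun i a b => g4 (i, a, b)⟩
    · obtain ⟨g, hgg⟩ := hg C hC hdC
      obtain ⟨q, hq, hqr⟩ := h2 fun s => g s.1 s.2.1 s.2.2
      refine ⟨_, ⟨q, hq, rfl⟩, hgg _ fun i a b => ?_⟩
      obtain ⟨r, hr⟩ := hqr (i, a, b)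
      refine ⟨(r : ℂ), hintg r, ?_⟩
      show ((q.2 (i, a, b) : ℤ) : ℂ) = _
      rw [hr]
      push_cast
      rfl
  · obtain ⟨D, hD⟩ := hmain
    obtain ⟨p, hp, hpinj⟩ := T2H68.ZD.exists_four_primes D
    obtain ⟨Q, hQ, hQp, hg⟩ := hD p hp hpinj
    obtain ⟨δ, hδ, hH⟩ := T2H68.ZD.prop_class' (ι := Fin n × Fin 2 × Fin 2) Q hQ
    refine ⟨δ, hδ, Q, fun C hC hdC H hHH => ?_⟩
    obtain ⟨g, hgg⟩ := hg C hC hdC
    have h1 := hH (fun s => g s.1 s.2.1 s.2.2)
      (fun h => Good Γ R C (toC fun i a b => h (i, a, b))) (by
        intro h hh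
        refine hgg _ fun i a b => ?_
        obtain ⟨r, hr⟩ := hh (i, a, b)
        refine ⟨(r : ℂ), hintg r, ?_⟩
        show ((h (i, a, b) : ℤ) : ℂ) = _
        rw [hr]
        push_cast
        rfl) H hHH
    have hcard : Fintype.card (Fin n × Fin 2 × Fin 2) = 4 * n := by
      simp only [Fintype.card_prod, Fintype.card_fin]
      ring
    rw [hcard] at h1
    refine h1.trans ?_
    have h2 : {h : Fin n × Fin 2 × Fin 2 → ℤ | (∀ s, |h s| ≤ H) ∧
        Good Γ R C (toC fun i a b => h (i, a, b))}.ncard =
        {h : Fin n → Matrix (Fin 2) (Fin 2) ℤ | (∀ i a b, |h i a b| ≤ H) ∧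
        Good Γ R C (toC h)}.ncard := by
      refine Set.ncard_congr (fun h _ => fun i a b => h (i, a, b)) ?_ ?_ ?_
      · rintro h ⟨h1, h2⟩
        exact ⟨fun i a b => h1 (i, a, b), h2⟩
      · intro h h' _ _ heq
        funext ⟨i, a, b⟩
        exact congrFun (congrFun (congrFun heq i) a) b
      · rintro h ⟨h1, h2⟩
        exact ⟨fun s => h s.1 s.2.1 s.2.2, ⟨fun s => h1 s.1 s.2.1 s.2.2, h2⟩, rfl⟩
    rw [h2]
  · intro C'
    have hv : ∀ s x : ℂ, valueAt (RingHom.id ℂ) (Polynomial.X - Polynomial.C Polynomial.X) s x =
        s - x := by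
      intro s x
      rw [valueAt, Polynomial.eval₂_sub, Polynomial.eval₂_X, Polynomial.eval₂_C,
        Polynomial.coe_eval₂RingHom, Polynomial.eval₂_X]
    ext x
    constructor
    · rintro ⟨s, hs, h⟩
      have : x = s := by
        funext i
        have := h i
        rw [hv, sub_eq_zero] at this
        exact this.symm
      rw [this]
      exact hs
    · intro hx
      exact ⟨x, hx, fun i => by rw [hv, sub_self]⟩

end Pool.Agent.Results.MP_e573c6_ag.UniformTranslates
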